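import Pool.Agent.Helper62.WB.Goals
import Pool.Agent.Helper62.WB.Basic

/-!
# Packet WB-S0 (facts on the supports)
-/

set_option autoImplicit false

namespace Pool.Agent.Helper48.WB

open Pool.Agent.Helper62.WB

variable {T : RTree} {D : Type} [Group D]

theorem supp_fwd (b : TAct T D) (τ : D ≃* D) {n : ℕ} (v : T.L n) (d : D) (x : T.Bd)
    (hx : x ∈ supp b τ v) : b.bd (τ d) x ∈ supp b τ (b.act n d v) := by
  obtain ⟨r, hr, hrx⟩ := hx
  refine ⟨d * r * d⁻¹, Rist_conj hr d, fun h => hrx ?_⟩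
  have h1 : b.bd (τ (d * r * d⁻¹)) (b.bd (τ d) x) = b.bd (τ d) (b.bd (τ r) x) := by
    rw [← Equiv.Perm.mul_apply, ← map_mul, ← map_mul, inv_mul_cancel_right, map_mul, map_mul,
      Equiv.Perm.mul_apply]
  rw [h1] at h
  exact (b.bd (τ d)).injective h

theorem s0 : StmtS0 := by
  intro T D _ b τ hb
  obtain ⟨hwb, hc1, hc2⟩ := hb
  refine ⟨?_, ?_, ?_, ?_, ?_⟩
  · intro n v x hx
    obtain ⟨r, hr, hrx⟩ := hx
    obtain ⟨k, hk⟩ := bd_ne hrx
    refine ⟨k, fun z hz => ⟨r, hr, fun h => hk ?_⟩⟩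
    have h1 : (b.bd (τ r) z).1 k = z.1 k := by rw [h]
    rw [TAct.bd_apply, hz] at h1
    rw [TAct.bd_apply]
    exact h1
  · intro n w x hx
    obtain ⟨r, hr, hrx⟩ := hx
    exact ⟨r, Rist_par hr, hrx⟩
  · intro n v d x
    refine ⟨supp_fwd b τ v d x, fun h => ?_⟩
    have h1 := supp_fwd b τ _ d⁻¹ _ h
    have h2 : b.bd (τ d⁻¹) (b.bd (τ d) x) = x := by
      rw [← Equiv.Perm.mul_apply, ← map_mul, ← map_mul, inv_mul_cancel, map_one, map_one]
      rfl
    have h3 : b.act n d⁻¹ (b.act n d v) = v := by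
      rw [← Equiv.Perm.mul_apply, ← map_mul, inv_mul_cancel, map_one]
      rfl
    rw [h2, h3] at h1
    exact h1
  · intro n
    obtain ⟨m, hm⟩ := hc2 n
    refine ⟨m, fun v d x hd hx => ?_⟩
    have h1 := supp_fwd b τ v (τ.symm d) x hx
    rw [MulEquiv.apply_symm_apply, hm d hd] at h1
    exact h1
  · intro n v d hd x hx
    by_contra hne
    obtain ⟨k0, hk0⟩ := bd_ne hne
    have hk : (b.bd d x).1 (max k0 n) ≠ x.1 (max k0 n) := bd_ne_of_le (le_max_left _ _) hk0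
    obtain ⟨c, hc, hc1⟩ := hwb.rist (max k0 n) (x.1 (max k0 n))
    have hcv : c ∈ b.Rist v := by
      have := Rist_le (le_max_right k0 n) hc
      rwa [hx] at this
    have h1 := hd c hcv
    have h2 : d * c * d⁻¹ = c := by rw [h1, mul_inv_cancel_right]
    have h3 := Rist_conj hc d
    rw [h2] at h3
    apply hc1
    refine eq_one_of_bd hwb fun y => ?_
    rw [mem_Rist_iff] at hc h3
    by_cases hy : y.1 (max k0 n) = x.1 (max k0 n)
    · refine h3 y fun h4 => hk ?_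
      rw [TAct.bd_apply, ← h4, hy]
    · exact hc y hy

end Pool.Agent.Helper48.WB
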